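import Mathlib

set_option autoImplicit false

/-!
# The free group of countable rank embeds in the free group of rank two
-/

namespace Pool.Agent.Y558.MR

open FreeGroup
open scoped Pointwise

/-- first letter of the reduced word -/
def hd (g : FreeGroup (Fin 2)) : Option (Fin 2 × Bool) := g.toWord.head?

theorem hd_mul (i : Fin 2) (b : Bool) (g : FreeGroup (Fin 2)) (h : hd g ≠ some (i, !b)) :
    hd (FreeGroup.mk [(i, b)] * g) = some (i, b) := by
  unfold hd at *
  have e : (FreeGroup.mk [(i, b)] * g).toWord = (i, b) :: g.toWord := by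
    rw [FreeGroup.toWord_mul]
    have e1 : (FreeGroup.mk [(i, b)]).toWord = [(i, b)] := by
      rw [FreeGroup.toWord_mk]
      rfl
    rw [e1, List.singleton_append, FreeGroup.reduce.cons, FreeGroup.reduce_toWord]
    rcases hw : g.toWord with _ | ⟨c, l⟩
    · rfl
    · rw [hw] at h
      refine if_neg ?_
      rintro ⟨h1, h2⟩
      apply h
      change i = c.1 at h1
      change b = !c.2 at h2
      rw [List.head?_cons]
      congr 1
      ext1
      · exact h1.symm
      · rw [h2, Bool.not_not]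
  rw [e, List.head?_cons]

theorem hd_pow (b : Bool) (k : ℕ) (hk : 0 < k) (g : FreeGroup (Fin 2))
    (h : hd g ≠ some (1, !b)) : hd (FreeGroup.mk [((1 : Fin 2), b)] ^ k * g) = some (1, b) := by
  obtain ⟨k, rfl⟩ := Nat.exists_eq_succ_of_ne_zero hk.ne'
  clear hk
  induction k with
  | zero =>
    rw [pow_one]
    exact hd_mul _ _ _ h
  | succ k ih =>
    rw [pow_succ', mul_assoc]
    apply hd_mul
    rw [ih]
    simp

theorem mk_inv (i : Fin 2) (b : Bool) :
    (FreeGroup.mk [(i, b)])⁻¹ = FreeGroup.mk [(i, !b)] := by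
  rw [FreeGroup.inv_mk]
  rfl

/-- generators -/
def gx : FreeGroup (Fin 2) := FreeGroup.mk [((0 : Fin 2), true)]
def gy : FreeGroup (Fin 2) := FreeGroup.mk [((1 : Fin 2), true)]

theorem gx_inv : gx⁻¹ = FreeGroup.mk [((0 : Fin 2), false)] := mk_inv _ _
theorem gy_inv : gy⁻¹ = FreeGroup.mk [((1 : Fin 2), false)] := mk_inv _ _

theorem sep_aux (n m : ℕ) (hnm : n < m) (w : FreeGroup (Fin 2)) (b c : Bool)
    (h1 : hd ((gy ^ n)⁻¹ * w) = some (0, b)) (h2 : hd ((gy ^ m)⁻¹ * w) = some (0, c)) : False := by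
  obtain ⟨k, rfl⟩ := Nat.exists_eq_add_of_lt hnm
  have e : (gy ^ (n + k + 1))⁻¹ * w = (gy⁻¹) ^ (k + 1) * ((gy ^ n)⁻¹ * w) := by
    rw [← mul_assoc, inv_pow, ← mul_inv_rev, ← pow_add, add_assoc]
  rw [e, gy_inv, hd_pow false (k + 1) (Nat.succ_pos _) _ (by rw [h1]; simp)] at h2
  simp at h2

theorem sep_ne (n m : ℕ) (hnm : n ≠ m) (w : FreeGroup (Fin 2)) (b c : Bool)
    (h1 : hd ((gy ^ n)⁻¹ * w) = some (0, b)) (h2 : hd ((gy ^ m)⁻¹ * w) = some (0, c)) : False := by
  rcases Nat.lt_or_gt_of_ne hnm with h | h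
  · exact sep_aux n m h w b c h1 h2
  · exact sep_aux m n h w c b h2 h1

/-- the free basis -/
def ga (n : ℕ) : FreeGroup (Fin 2) := gy ^ n * gx * (gy ^ n)⁻¹

theorem ga_inj : Function.Injective (FreeGroup.lift ga) := by
  refine FreeGroup.injective_lift_of_ping_pong (α := FreeGroup (Fin 2)) ga
    (fun n => {w | hd ((gy ^ n)⁻¹ * w) = some (0, true)})
    (fun n => {w | hd ((gy ^ n)⁻¹ * w) = some (0, false)}) ?_ ?_ ?_ ?_ ?_ ?_
  · intro n
    refine ⟨gy ^ n * gx, ?_⟩
    show hd ((gy ^ n)⁻¹ * (gy ^ n * gx)) = some (0, true)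
    rw [inv_mul_cancel_left]
    unfold hd gx
    rw [FreeGroup.toWord_mk]
    rfl
  · intro n m hnm
    rw [Function.onFun, Set.disjoint_left]
    intro w h1 h2
    exact sep_ne n m hnm w _ _ h1 h2
  · intro n m hnm
    rw [Function.onFun, Set.disjoint_left]
    intro w h1 h2
    exact sep_ne n m hnm w _ _ h1 h2
  · intro n m
    rw [Set.disjoint_left]
    intro w h1 h2
    by_cases hnm : n = m
    · subst hnm
      have h3 : hd ((gy ^ n)⁻¹ * w) = some (0, true) := h1
      have h4 : hd ((gy ^ n)⁻¹ * w) = some (0, false) := h2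
      rw [h3] at h4
      simp at h4
    · exact sep_ne n m hnm w _ _ h1 h2
  · rintro n _ ⟨w, hw, rfl⟩
    show hd ((gy ^ n)⁻¹ * (ga n * w)) = some (0, true)
    have hw' : hd ((gy ^ n)⁻¹ * w) ≠ some (0, false) := hw
    have e : (gy ^ n)⁻¹ * (ga n * w) = gx * ((gy ^ n)⁻¹ * w) := by
      unfold ga
      group
    rw [e]
    exact hd_mul 0 true _ hw'
  · rintro n _ ⟨w, hw, rfl⟩
    show hd ((gy ^ n)⁻¹ * (ga⁻¹ n * w)) = some (0, false)
    have hw' : hd ((gy ^ n)⁻¹ * w) ≠ some (0, true) := hw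
    have e : (gy ^ n)⁻¹ * (ga⁻¹ n * w) = gx⁻¹ * ((gy ^ n)⁻¹ * w) := by
      show (gy ^ n)⁻¹ * ((ga n)⁻¹ * w) = _
      unfold ga
      group
    rw [e, gx_inv]
    exact hd_mul 0 false _ hw'

end Pool.Agent.Y558.MR
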