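import Mathlib

set_option autoImplicit false

/-!
# A canonical linear order on a tree of copies of a linear order

`V` is a set of vertices with an integer valued metric `d` satisfying the four point inequality,
with even perimeters, and with a strict linear order `prec`.  `M` is a strict linear order and for
vertices `p`, `q` at distance one a relation `E p q` between `M` and `M` is given that makes the
union of the copies of `M` over `p` and `q` a linear order.  There is a canonical linear order on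
`V × M` that extends all this.
-/

namespace Pool.Agent.Y558.MR

structure Geo {V : Type} (d : V → V → ℕ) (prec : V → V → Prop) : Prop where
  self : ∀ p, d p p = 0
  eq_of : ∀ p q, d p q = 0 → p = q
  symm : ∀ p q, d p q = d q p
  four : ∀ p q r s, d p q + d r s ≤ max (d p r + d q s) (d p s + d q r)
  even : ∀ p q r, 2 ∣ d p q + d q r + d p r
  pirr : ∀ p, ¬ prec p p
  ptr : ∀ p q r, prec p q → prec q r → prec p r
  ptot : ∀ p q, p = q ∨ prec p q ∨ prec q p

structure Loc {V M : Type} (d : V → V → ℕ) (lt : M → M → Prop) (E : V → V → M → M → Prop) :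
    Prop where
  irr : ∀ m, ¬ lt m m
  tr : ∀ m n k, lt m n → lt n k → lt m k
  tot : ∀ m n, m = n ∨ lt m n ∨ lt n m
  compl : ∀ p q, d p q = 1 → ∀ m n, E p q m n ↔ ¬ E q p n m
  left : ∀ p q, d p q = 1 → ∀ m m' n, lt m' m → E p q m n → E p q m' n

section
variable {V M : Type} (d : V → V → ℕ) (prec : V → V → Prop) (lt : M → M → Prop)
  (E : V → V → M → M → Prop)

/-- `s` is strictly between `p` and `q` -/
def Btw (p s q : V) : Prop := d p s + d s q = d p q ∧ d p s < d p q ∧ d s q < d p q ∧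
  d q s < d p q ∧ d s p < d p q

/-- The canonical order. -/
def R (X Y : V × M) : Prop :=
  (d X.1 Y.1 = 0 ∧ lt X.2 Y.2) ∨ (d X.1 Y.1 = 1 ∧ E X.1 Y.1 X.2 Y.2) ∨
  (2 ≤ d X.1 Y.1 ∧
    ((∃ Z : V × M, ∃ _ : Btw d X.1 Z.1 Y.1, R X Z ∧ R Z Y) ∨
      ((¬ ∃ Z : V × M, ∃ _ : Btw d X.1 Z.1 Y.1, R Y Z ∧ R Z X) ∧ prec X.1 Y.1)))
termination_by d X.1 Y.1
decreasing_by
  all_goals
    rename_i h
    obtain ⟨h1, h2, h3, h4, h5⟩ := h
    assumption

/-- `X` and `Y` are separated by an element over a vertex strictly between theirs -/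
def Sep (X Y : V × M) : Prop := ∃ Z : V × M, Btw d X.1 Z.1 Y.1 ∧ R d prec lt E X Z ∧
  R d prec lt E Z Y

end

section
variable {V M : Type} {d : V → V → ℕ} {prec : V → V → Prop} {lt : M → M → Prop}
  {E : V → V → M → M → Prop}

theorem R0 {X Y : V × M} (h : d X.1 Y.1 = 0) : R d prec lt E X Y ↔ lt X.2 Y.2 := by
  rw [R]
  constructor
  · rintro (⟨-, h1⟩ | ⟨h1, -⟩ | ⟨h1, -⟩)
    · exact h1
    · omega
    · omega
  · intro h1
    exact Or.inl ⟨h, h1⟩

theorem R1 {X Y : V × M} (h : d X.1 Y.1 = 1) : R d prec lt E X Y ↔ E X.1 Y.1 X.2 Y.2 := by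
  rw [R]
  constructor
  · rintro (⟨h1, -⟩ | ⟨-, h1⟩ | ⟨h1, -⟩)
    · omega
    · exact h1
    · omega
  · intro h1
    exact Or.inr (Or.inl ⟨h, h1⟩)

theorem Btw.swap (hG : Geo d prec) {p s q : V} (h : Btw d p s q) : Btw d q s p := by
  obtain ⟨h1, h2, h3, h4, h5⟩ := h
  have a1 := hG.symm p s
  have a2 := hG.symm q s
  have a3 := hG.symm p q
  refine ⟨?_, ?_, ?_, ?_, ?_⟩ <;> omega

theorem R2 (hG : Geo d prec) {X Y : V × M} (h : 2 ≤ d X.1 Y.1) : R d prec lt E X Y ↔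
    (Sep d prec lt E X Y ∨ (¬ Sep d prec lt E Y X ∧ prec X.1 Y.1)) := by
  have e1 : (∃ Z : V × M, ∃ _ : Btw d X.1 Z.1 Y.1, R d prec lt E X Z ∧ R d prec lt E Z Y) ↔
      Sep d prec lt E X Y := by
    constructor
    · rintro ⟨Z, h1, h2, h3⟩
      exact ⟨Z, h1, h2, h3⟩
    · rintro ⟨Z, h1, h2, h3⟩
      exact ⟨Z, h1, h2, h3⟩
  have e2 : (∃ Z : V × M, ∃ _ : Btw d X.1 Z.1 Y.1, R d prec lt E Y Z ∧ R d prec lt E Z X) ↔
      Sep d prec lt E Y X := by
    constructor
    · rintro ⟨Z, h1, h2, h3⟩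
      exact ⟨Z, h1.swap hG, h2, h3⟩
    · rintro ⟨Z, h1, h2, h3⟩
      exact ⟨Z, h1.swap hG, h2, h3⟩
  rw [R, e1, e2]
  constructor
  · rintro (⟨h1, -⟩ | ⟨h1, -⟩ | ⟨-, h1⟩)
    · omega
    · omega
    · exact h1
  · intro h1
    exact Or.inr (Or.inr ⟨h, h1⟩)

theorem R_tot (hG : Geo d prec) (hL : Loc d lt E) (X Y : V × M) :
    X = Y ∨ R d prec lt E X Y ∨ R d prec lt E Y X := by
  have hs := hG.symm X.1 Y.1
  rcases Nat.lt_or_ge (d X.1 Y.1) 2 with h | h
  · rcases Nat.eq_zero_or_pos (d X.1 Y.1) with h0 | h0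
    · have hp := hG.eq_of _ _ h0
      rcases hL.tot X.2 Y.2 with h1 | h1 | h1
      · exact Or.inl (Prod.ext hp h1)
      · exact Or.inr (Or.inl ((R0 h0).2 h1))
      · exact Or.inr (Or.inr ((R0 (hs ▸ h0)).2 h1))
    · have h1 : d X.1 Y.1 = 1 := by omega
      right
      by_cases h2 : R d prec lt E X Y
      · exact Or.inl h2
      · right
        rw [R1 h1] at h2
        rw [R1 (hs ▸ h1)]
        rw [hL.compl _ _ h1] at h2
        exact not_not.1 h2
  · right
    rw [R2 hG h, R2 hG (hs ▸ h)]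
    by_cases h1 : Sep d prec lt E X Y
    · exact Or.inl (Or.inl h1)
    · by_cases h2 : Sep d prec lt E Y X
      · exact Or.inr (Or.inl h2)
      · rcases hG.ptot X.1 Y.1 with h3 | h3 | h3
        · rw [h3, hG.self] at h
          omega
        · exact Or.inl (Or.inr ⟨h2, h3⟩)
        · exact Or.inr (Or.inr ⟨h1, h3⟩)

theorem Geo.tri (hG : Geo d prec) (p q r : V) : d p r ≤ d p q + d q r := by
  have h1 := hG.four p r q q
  have h2 := hG.self q
  have h3 := hG.symm r q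
  omega

theorem Btw.pos (hG : Geo d prec) {p s q : V} (h : Btw d p s q) : 2 ≤ d p q := by
  obtain ⟨h1, h2, h3, h4, h5⟩ := h
  omega

/-- The joint induction. -/
theorem main (hG : Geo d prec) (hL : Loc d lt E) (N : ℕ) :
    (∀ X Y : V × M, 2 * d X.1 Y.1 ≤ N → R d prec lt E X Y → R d prec lt E Y X → False) ∧
    (∀ X Y Z : V × M, d X.1 Y.1 + d Y.1 Z.1 + d Z.1 X.1 ≤ N → R d prec lt E X Y →
      R d prec lt E Y Z → R d prec lt E Z X → False) := by
  induction N using Nat.strong_induction_on with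
  | _ N ih =>
  -- smaller asymmetry and smaller cycles
  have A' : ∀ X Y : V × M, 2 * d X.1 Y.1 < N → R d prec lt E X Y → R d prec lt E Y X → False :=
    fun X Y h => (ih _ h).1 X Y le_rfl
  have T' : ∀ X Y Z : V × M, d X.1 Y.1 + d Y.1 Z.1 + d Z.1 X.1 < N → R d prec lt E X Y →
      R d prec lt E Y Z → R d prec lt E Z X → False :=
    fun X Y Z h => (ih _ h).2 X Y Z le_rfl
  have A : ∀ X Y : V × M, 2 * d X.1 Y.1 ≤ N → R d prec lt E X Y → R d prec lt E Y X → False := by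
    intro X Y hN h1 h2
    have hs := hG.symm X.1 Y.1
    rcases Nat.lt_or_ge (d X.1 Y.1) 2 with h | h
    · rcases Nat.eq_zero_or_pos (d X.1 Y.1) with h0 | h0
      · rw [R0 h0] at h1
        rw [R0 (hs ▸ h0)] at h2
        exact hL.irr _ (hL.tr _ _ _ h1 h2)
      · have h3 : d X.1 Y.1 = 1 := by omega
        rw [R1 h3, hL.compl _ _ h3] at h1
        rw [R1 (hs ▸ h3)] at h2
        exact h1 h2
    · -- two separations contradict each other
      have key : Sep d prec lt E X Y → Sep d prec lt E Y X → False := by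
        rintro ⟨Z, ⟨b1, b2, b3, b4, b5⟩, hXZ, hZY⟩ ⟨W, ⟨c1, c2, c3, c4, c5⟩, hYW, hWX⟩
        have f1 := hG.four X.1 Y.1 Z.1 W.1
        have s1 := hG.symm X.1 Z.1
        have s2 := hG.symm X.1 W.1
        have s3 := hG.symm Y.1 Z.1
        have s4 := hG.symm Y.1 W.1
        have s5 := hG.symm Z.1 W.1
        rcases R_tot hG hL (M := M) Z W with h3 | h3 | h3
        · subst h3
          exact A' X Z (by omega) hXZ hWX
        · exact T' X Z W (by omega) hXZ h3 hWX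
        · exact T' Y W Z (by omega) hYW h3 hZY
      rw [R2 hG h] at h1
      rw [R2 hG (hs ▸ h)] at h2
      rcases h1 with h1 | ⟨h1, h1'⟩
      · rcases h2 with h2 | ⟨h2, h2'⟩
        · exact key h1 h2
        · exact h2 h1
      · rcases h2 with h2 | ⟨h2, h2'⟩
        · exact h1 h2
        · exact hG.pirr _ (hG.ptr _ _ _ h1' h2')
  refine ⟨A, ?_⟩
  -- cycles with two elements over the same vertex
  have C0 : ∀ X Y Z : V × M, X.1 = Y.1 → d X.1 Y.1 + d Y.1 Z.1 + d Z.1 X.1 ≤ N →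
      R d prec lt E X Y → R d prec lt E Y Z → R d prec lt E Z X → False := by
    intro X Y Z hXY hN h1 h2 h3
    have e1 : d X.1 Y.1 = 0 := by rw [hXY, hG.self]
    have e2 : d Y.1 Z.1 = d X.1 Z.1 := by rw [hXY]
    have s1 := hG.symm X.1 Z.1
    have l1 := (R0 e1).1 h1
    have hXZ : R d prec lt E X Z → False := fun h => A X Z (by omega) h h3
    have hZY : R d prec lt E Z Y → False := fun h => A Z Y (by
      have := hG.symm Z.1 Y.1
      omega) h h2
    rcases Nat.lt_or_ge (d X.1 Z.1) 2 with h | h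
    · rcases Nat.eq_zero_or_pos (d X.1 Z.1) with h0 | h0
      · rw [R0 (by omega)] at h2
        exact hXZ ((R0 h0).2 (hL.tr _ _ _ l1 h2))
      · have h4 : d X.1 Z.1 = 1 := by omega
        rw [R1 (by omega)] at h2
        rw [← hXY] at h2
        exact hXZ ((R1 h4).2 (hL.left _ _ h4 _ _ _ l1 h2))
    · have h2' := h2
      have h3' := h3
      rw [R2 hG (by omega)] at h2'
      rw [R2 hG (by omega)] at h3'
      rcases h2' with ⟨W, ⟨b1, b2, b3, b4, b5⟩, hYW, hWZ⟩ | ⟨-, h2'⟩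
      · apply hXZ
        rw [R2 hG h]
        refine Or.inl ⟨W, ?_, ?_, hWZ⟩
        · rw [← hXY] at b1 b2 b3 b4 b5
          exact ⟨b1, b2, b3, b4, b5⟩
        · have s2 := hG.symm Y.1 W.1
          have e3 : d W.1 X.1 = d W.1 Y.1 := by rw [hXY]
          rcases R_tot hG hL (M := M) X W with h5 | h5 | h5
          · exfalso
            rw [← h5] at b3
            omega
          · exact h5
          · exact (T' X Y W (by omega) h1 hYW h5).elim
      · rcases h3' with ⟨W, ⟨b1, b2, b3, b4, b5⟩, hZW, hWX⟩ | ⟨-, h3'⟩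
        · apply hZY
          rw [R2 hG (by have := hG.symm Y.1 Z.1; omega)]
          refine Or.inl ⟨W, ?_, hZW, ?_⟩
          · rw [hXY] at b1 b2 b3 b4 b5
            exact ⟨b1, b2, b3, b4, b5⟩
          · have s2 := hG.symm X.1 W.1
            have e3 : d Y.1 W.1 = d X.1 W.1 := by rw [hXY]
            rcases R_tot hG hL (M := M) W Y with h5 | h5 | h5
            · exfalso
              have : d W.1 X.1 = 0 := by rw [h5, ← hXY, hG.self]
              omega
            · exact h5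
            · exact (T' X Y W (by omega) h1 h5 hWX).elim
        · rw [hXY] at h3'
          exact hG.pirr _ (hG.ptr _ _ _ h2' h3')
  -- cycles in which the second vertex is between the other two
  have C1 : ∀ X Y Z : V × M, X.1 ≠ Y.1 → Y.1 ≠ Z.1 → d X.1 Y.1 + d Y.1 Z.1 = d X.1 Z.1 →
      d X.1 Y.1 + d Y.1 Z.1 + d Z.1 X.1 ≤ N →
      R d prec lt E X Y → R d prec lt E Y Z → R d prec lt E Z X → False := by
    intro X Y Z hXY hYZ hb hN h1 h2 h3
    have n1 : d X.1 Y.1 ≠ 0 := fun h => hXY (hG.eq_of _ _ h)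
    have n2 : d Y.1 Z.1 ≠ 0 := fun h => hYZ (hG.eq_of _ _ h)
    have s1 := hG.symm X.1 Z.1
    have s2 := hG.symm X.1 Y.1
    have s3 := hG.symm Y.1 Z.1
    refine A X Z (by omega) ?_ h3
    rw [R2 hG (by omega)]
    exact Or.inl ⟨Y, ⟨by omega, by omega, by omega, by omega, by omega⟩, h1, h2⟩
  -- cycles in general position in which the first pair is separated
  have C2 : ∀ X Y Z : V × M, X.1 ≠ Y.1 → Y.1 ≠ Z.1 → Z.1 ≠ X.1 →
      d X.1 Y.1 + d Y.1 Z.1 ≠ d X.1 Z.1 → d Y.1 Z.1 + d Z.1 X.1 ≠ d Y.1 X.1 →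
      d Z.1 X.1 + d X.1 Y.1 ≠ d Z.1 Y.1 →
      d X.1 Y.1 + d Y.1 Z.1 + d Z.1 X.1 ≤ N → Sep d prec lt E X Y →
      R d prec lt E Y Z → R d prec lt E Z X → False := by
    rintro X Y Z hXY hYZ hZX g1 g2 g3 hN ⟨C, ⟨b1, b2, b3, b4, b5⟩, hXC, hCY⟩ h2 h3
    have n1 : d X.1 Y.1 ≠ 0 := fun h => hXY (hG.eq_of _ _ h)
    have n2 : d Y.1 Z.1 ≠ 0 := fun h => hYZ (hG.eq_of _ _ h)
    have n3 : d Z.1 X.1 ≠ 0 := fun h => hZX (hG.eq_of _ _ h)
    have s1 := hG.symm X.1 Z.1
    have s2 := hG.symm X.1 Y.1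
    have s3 := hG.symm Y.1 Z.1
    have s4 := hG.symm X.1 C.1
    have s5 := hG.symm Y.1 C.1
    have s6 := hG.symm Z.1 C.1
    have t1 := hG.tri C.1 Y.1 Z.1
    have t2 := hG.tri C.1 X.1 Z.1
    have t3 := hG.tri X.1 Y.1 Z.1
    have t4 := hG.tri Y.1 X.1 Z.1
    have f1 := hG.four X.1 Y.1 C.1 Z.1
    rcases R_tot hG hL (M := M) C Z with h4 | h4 | h4
    · rw [h4] at b1
      omega
    · refine T' X C Z ?_ hXC h4 h3
      -- d C Z < d C Y + d Y Z
      have : d C.1 Z.1 ≠ d C.1 Y.1 + d Y.1 Z.1 := by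
        intro h
        omega
      omega
    · refine T' C Y Z ?_ hCY h2 h4
      have : d C.1 Z.1 ≠ d C.1 X.1 + d X.1 Z.1 := by
        intro h
        omega
      omega
  intro X Y Z hN h1 h2 h3
  have s1 := hG.symm X.1 Z.1
  have s2 := hG.symm X.1 Y.1
  have s3 := hG.symm Y.1 Z.1
  by_cases hXY : X.1 = Y.1
  · exact C0 X Y Z hXY hN h1 h2 h3
  by_cases hYZ : Y.1 = Z.1
  · exact C0 Y Z X hYZ (by omega) h2 h3 h1
  by_cases hZX : Z.1 = X.1
  · exact C0 Z X Y hZX (by omega) h3 h1 h2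
  have n1 : d X.1 Y.1 ≠ 0 := fun h => hXY (hG.eq_of _ _ h)
  have n2 : d Y.1 Z.1 ≠ 0 := fun h => hYZ (hG.eq_of _ _ h)
  have n3 : d Z.1 X.1 ≠ 0 := fun h => hZX (hG.eq_of _ _ h)
  by_cases g1 : d X.1 Y.1 + d Y.1 Z.1 = d X.1 Z.1
  · exact C1 X Y Z hXY hYZ g1 hN h1 h2 h3
  by_cases g2 : d Y.1 Z.1 + d Z.1 X.1 = d Y.1 X.1
  · exact C1 Y Z X hYZ hZX g2 (by omega) h2 h3 h1
  by_cases g3 : d Z.1 X.1 + d X.1 Y.1 = d Z.1 Y.1
  · exact C1 Z X Y hZX hXY g3 (by omega) h3 h1 h2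
  -- all distances are at least two
  have t1 := hG.tri X.1 Y.1 Z.1
  have t2 := hG.tri Y.1 Z.1 X.1
  have t3 := hG.tri Z.1 X.1 Y.1
  have ev := hG.even X.1 Y.1 Z.1
  have m1 : 2 ≤ d X.1 Y.1 := by omega
  have m2 : 2 ≤ d Y.1 Z.1 := by omega
  have m3 : 2 ≤ d Z.1 X.1 := by omega
  have h1' := h1
  have h2' := h2
  have h3' := h3
  rw [R2 hG m1] at h1'
  rw [R2 hG m2] at h2'
  rw [R2 hG m3] at h3'
  rcases h1' with h1' | ⟨-, h1'⟩
  · exact C2 X Y Z hXY hYZ hZX g1 g2 g3 hN h1' h2 h3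
  rcases h2' with h2' | ⟨-, h2'⟩
  · exact C2 Y Z X hYZ hZX hXY g2 g3 g1 (by omega) h2' h3 h1
  rcases h3' with h3' | ⟨-, h3'⟩
  · exact C2 Z X Y hZX hXY hYZ g3 g1 g2 (by omega) h3' h1 h2
  exact hG.pirr _ (hG.ptr _ _ _ (hG.ptr _ _ _ h1' h2') h3')

theorem R_irr (hG : Geo d prec) (hL : Loc d lt E) (X : V × M) : ¬ R d prec lt E X X :=
  fun h => (main hG hL _).1 X X le_rfl h h

theorem R_tr (hG : Geo d prec) (hL : Loc d lt E) (X Y Z : V × M) (h1 : R d prec lt E X Y)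
    (h2 : R d prec lt E Y Z) : R d prec lt E X Z := by
  rcases R_tot hG hL (M := M) X Z with h | h | h
  · subst h
    exact ((main hG hL _).1 X Y le_rfl h1 h2).elim
  · exact h
  · exact ((main hG hL _).2 X Y Z le_rfl h1 h2 h).elim

end

end Pool.Agent.Y558.MR
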