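import Pool.Agent.W379.FT
import Pool.Agent.H139R3.BO.FreeInj
import Pool.Agent.Y558.MR.Ord
import Pool.Agent.Y558.MR.Emb

set_option autoImplicit false

/-!
# The tree of the free group of countable rank
-/

namespace Pool.Agent.Y558.MR

open FreeGroup Pool.Agent.W379

/-- the group -/
abbrev F : Type := FreeGroup ℕ

/-- distance in the Cayley tree -/
def dd (p q : F) : ℕ := (p⁻¹ * q).norm

/-- a left invariant linear order -/
def pr (p q : F) : Prop := FreeGroup.lift ga p < FreeGroup.lift ga q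

theorem dd_left (g p q : F) : dd (g * p) (g * q) = dd p q := by
  unfold dd
  congr 1
  group

theorem pr_left (g p q : F) : pr (g * p) (g * q) ↔ pr p q := by
  unfold pr
  rw [_root_.map_mul, _root_.map_mul]
  constructor
  · intro h
    have h1 := Pool.Agent.H139R3.BO.free_mul_lt_left (FreeGroup.lift ga g)⁻¹ _ _ h
    rwa [inv_mul_cancel_left, inv_mul_cancel_left] at h1
  · intro h
    exact Pool.Agent.H139R3.BO.free_mul_lt_left (FreeGroup.lift ga g) _ _ h

theorem gp_comm (x y : F) : gp x y = gp y x := by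
  have h1 := gp_spec x y
  have h2 := gp_spec y x
  have h3 : norm (x⁻¹ * y) = norm (y⁻¹ * x) := by
    rw [← FreeGroup.norm_inv_eq]
    congr 1
    group
  omega

theorem dd_self (p : F) : dd p p = 0 := by
  unfold dd
  rw [inv_mul_cancel, FreeGroup.norm_one]

theorem dd_symm (p q : F) : dd p q = dd q p := by
  unfold dd
  rw [← FreeGroup.norm_inv_eq]
  congr 1
  group

theorem dd_base (p q r : F) : dd q r + 2 * gp (p⁻¹ * q) (p⁻¹ * r) = dd p q + dd p r := by
  have h := gp_spec (p⁻¹ * q) (p⁻¹ * r)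
  have e : (p⁻¹ * q)⁻¹ * (p⁻¹ * r) = q⁻¹ * r := by group
  rw [e] at h
  exact h

theorem geo : Geo dd pr where
  self := dd_self
  eq_of p q h := by
    have h1 : p⁻¹ * q = 1 := FreeGroup.norm_eq_zero.1 h
    rw [inv_mul_eq_one] at h1
    exact h1
  symm := dd_symm
  four p q r s := by
    have h1 := dd_base p r s
    have h2 := dd_base p q s
    have h3 := dd_base p q r
    have h4 := gp_ultra (p⁻¹ * r) (p⁻¹ * q) (p⁻¹ * s)
    have h5 := gp_comm (p⁻¹ * r) (p⁻¹ * q)
    omega
  even p q r := by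
    have h1 := dd_base p q r
    have h2 := dd_symm p r
    omega
  pirr p := lt_irrefl _
  ptr p q r := lt_trans
  ptot p q := by
    rcases lt_trichotomy (FreeGroup.lift ga p) (FreeGroup.lift ga q) with h | h | h
    · exact Or.inr (Or.inl h)
    · exact Or.inl (ga_inj h)
    · exact Or.inr (Or.inr h)

theorem dd_one {p q : F} (h : dd p q = 1) :
    ∃ n : ℕ, p⁻¹ * q = FreeGroup.of n ∨ p⁻¹ * q = (FreeGroup.of n)⁻¹ := by
  have h1 : (p⁻¹ * q).toWord.length = 1 := h
  obtain ⟨c, hc⟩ := List.length_eq_one_iff.1 h1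
  have h2 : p⁻¹ * q = FreeGroup.mk [c] := by
    rw [← hc, FreeGroup.mk_toWord]
  obtain ⟨n, b⟩ := c
  refine ⟨n, ?_⟩
  cases b with
  | true => exact Or.inl h2
  | false => exact Or.inr (by rw [h2]; rfl)

theorem norm_of' (n : ℕ) : norm (FreeGroup.of n : F) = 1 := FreeGroup.norm_of n

theorem of_ne_inv (n m : ℕ) : (FreeGroup.of n : F) ≠ (FreeGroup.of m)⁻¹ := by
  intro h
  have h1 := congrArg FreeGroup.toWord h
  rw [FreeGroup.toWord_inv, FreeGroup.toWord_of, FreeGroup.toWord_of] at h1
  simp [FreeGroup.invRev] at h1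

end Pool.Agent.Y558.MR
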